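import Pool.Agent.H11.ST.Trans

/-!
# MP_0b97f5_mp, module BLOCH
-/

open Set Filter Topology Matrix

noncomputable section

namespace Pool.Agent.H11.ST

open H31.ST

/-- BLOCH -/
theorem bloch : T_BLOCH := by
  intro v q E hq hv htr
  obtain ⟨μ, x, y, hμ, hxy, h1, h2⟩ := exists_unit_eigen (Tr v E q) (Tr_det v E q) htr
  have hμ0 : μ ≠ 0 := by
    intro h
    rw [h, norm_zero] at hμ
    exact zero_ne_one hμ
  set W : ℕ → ℂ := fun n => (Tr v E n 0 0 : ℂ) * x + (Tr v E n 0 1 : ℂ) * y with hW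
  set Z : ℕ → ℂ := fun n => (Tr v E n 1 0 : ℂ) * x + (Tr v E n 1 1 : ℂ) * y with hZ
  have hW1 : ∀ n, W (n + 1) = (E - v n) * W n - Z n := by
    intro n
    simp only [hW, hZ, Tr_succ_00, Tr_succ_01]
    push_cast
    ring
  have hZ1 : ∀ n, Z (n + 1) = W n := by
    intro n
    simp only [hW, hZ, Tr_succ_10, Tr_succ_11]
  have hWq : ∀ n, W (n + q) = μ * W n := by
    intro n
    simp only [hW, Tr_add v E q hv n, Matrix.mul_apply, Fin.sum_univ_two]
    push_cast
    linear_combination (Tr v E n 0 0 : ℂ) * h1 + (Tr v E n 0 1 : ℂ) * h2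
  have hvq : ∀ (N : ℕ) (j : ℤ), v (j + N * q) = v j := by
    intro N
    induction N with
    | zero => intro j; simp
    | succ N ih =>
      intro j
      have : j + ((N + 1 : ℕ) : ℤ) * q = (j + N * q) + q := by push_cast; ring
      rw [this, hv, ih]
  have hWN : ∀ N n : ℕ, W (n + N * q) = μ ^ N * W n := by
    intro N
    induction N with
    | zero => intro n; simp
    | succ N ih =>
      intro n
      have : n + (N + 1) * q = (n + N * q) + q := by ring
      rw [this, hWq, ih, pow_succ]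
      ring
  set u : ℤ → ℂ := fun j => (μ⁻¹) ^ j.natAbs * W (j + j.natAbs * q).toNat with hu
  have hnn : ∀ j : ℤ, 0 ≤ j + j.natAbs * (q : ℤ) := by
    intro j
    have h3 : -(j.natAbs : ℤ) ≤ j := by omega
    have h4 : (j.natAbs : ℤ) * 1 ≤ (j.natAbs : ℤ) * q := by
      apply mul_le_mul_of_nonneg_left _ (by omega)
      exact_mod_cast hq
    linarith
  have key : ∀ (j : ℤ) (N m : ℕ), (m : ℤ) = j + N * q → u j = (μ⁻¹) ^ N * W m := by
    intro j N m hm
    simp only [hu]
    set N' := j.natAbs with hN'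
    set m' := (j + N' * (q : ℤ)).toNat with hm'
    have hm'' : (m' : ℤ) = j + N' * q := by
      rw [hm', Int.toNat_of_nonneg (hnn j)]
    have gen : ∀ (N₁ m₁ N₂ m₂ : ℕ), N₁ ≤ N₂ → (m₁ : ℤ) = j + N₁ * q → (m₂ : ℤ) = j + N₂ * q →
        (μ⁻¹) ^ N₁ * W m₁ = (μ⁻¹) ^ N₂ * W m₂ := by
      intro N₁ m₁ N₂ m₂ hle e1 e2
      obtain ⟨d, rfl⟩ := Nat.exists_eq_add_of_le hle
      have e3 : m₂ = m₁ + d * q := by
        have : (m₂ : ℤ) = m₁ + d * q := by rw [e1, e2]; push_cast; ring
        exact_mod_cast this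
      rw [e3, hWN, pow_add, inv_pow, inv_pow]
      field_simp
    rcases le_total N' N with h | h
    · exact gen _ _ _ _ h hm'' hm
    · exact (gen _ _ _ _ h hm hm'').symm
  refine ⟨u, ?_, ?_, ?_⟩
  · by_contra hcon
    push Not at hcon
    have hW0 : ∀ n : ℕ, W n = 0 := by
      intro n
      have h3 := key n 0 n (by simp)
      rw [hcon, pow_zero, one_mul] at h3
      exact h3.symm
    have h3 : x = 0 := by
      have := hW0 0
      simpa [hW, Tr_zero] using this
    have h4 : y = 0 := by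
      have := hW1 0
      rw [hW0, hW0, mul_zero, zero_sub] at this
      have h5 : Z 0 = 0 := neg_eq_zero.1 this.symm
      simpa [hZ, Tr_zero, h3] using h5
    rcases hxy with h | h
    · exact h h3
    · exact h h4
  · intro j
    set N := j.natAbs + 1 with hN
    have hpos : 0 < j + N * (q : ℤ) := by
      have h3 := hnn j
      have h4 : (0 : ℤ) < q := by exact_mod_cast hq
      rw [hN]
      push_cast at h3 ⊢
      nlinarith
    obtain ⟨m, hm⟩ : ∃ m : ℕ, ((m + 1 : ℕ) : ℤ) = j + N * q := by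
      refine ⟨(j + N * (q : ℤ)).toNat - 1, ?_⟩
      omega
    rw [key j N (m + 1) hm, key (j + 1) N (m + 2) (by push_cast at hm ⊢; linarith),
      key (j - 1) N m (by push_cast at hm ⊢; linarith)]
    have h3 := hW1 (m + 1)
    rw [hZ1] at h3
    have h4 : v j = v ((m + 1 : ℕ) : ℤ) := by rw [hm, hvq]
    rw [h4, show m + 2 = m + 1 + 1 from rfl, h3]
    ring
  · intro j
    have h3 := key j j.natAbs (j + j.natAbs * (q : ℤ)).toNat (by
      rw [Int.toNat_of_nonneg (hnn j)])
    have h4 := key (j + q) j.natAbs ((j + j.natAbs * (q : ℤ)).toNat + q) (by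
      rw [Nat.cast_add, Int.toNat_of_nonneg (hnn j)]
      ring)
    rw [h4, h3, hWq, norm_mul, norm_mul, norm_mul, hμ, one_mul]

end Pool.Agent.H11.ST
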