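import Pool.Agent.H11.ST.Trans

/-!
# MP_0b97f5_mp, module CYC: lower bound on a cycle
-/

open Set Filter Topology Matrix
open scoped InnerProductSpace

noncomputable section

namespace Pool.Agent.H11.ST

open H31.ST

variable {q : ℕ} [NeZero q]

/-- the Schrödinger operator on a cycle -/
def cycOp (v : ℤ → ℝ) (E : ℝ) (q : ℕ) :
    EuclideanSpace ℂ (ZMod q) →ₗ[ℂ] EuclideanSpace ℂ (ZMod q) where
  toFun φ := WithLp.toLp 2 fun i => φ (i + 1) + φ (i - 1) + (v i.cast - E : ℂ) * φ i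
  map_add' φ χ := by
    ext i
    simp only [PiLp.add_apply]
    ring
  map_smul' c φ := by
    ext i
    simp only [PiLp.smul_apply, smul_eq_mul, RingHom.id_apply]
    ring

omit [NeZero q] in
theorem cycOp_apply (v : ℤ → ℝ) (E : ℝ) (φ : EuclideanSpace ℂ (ZMod q)) (i : ZMod q) :
    cycOp v E q φ i = φ (i + 1) + φ (i - 1) + (v i.cast - E : ℂ) * φ i := rfl

theorem cycOp_symm (v : ℤ → ℝ) (E : ℝ) : (cycOp v E q).IsSymmetric := by
  intro φ χ
  simp only [PiLp.inner_apply, cycOp_apply, inner_add_left, inner_add_right,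
    Finset.sum_add_distrib]
  have h1 : ∑ i : ZMod q, ⟪φ (i + 1), χ i⟫_ℂ = ∑ i : ZMod q, ⟪φ i, χ (i - 1)⟫_ℂ := by
    rw [← Equiv.sum_comp (Equiv.addRight (1 : ZMod q)) (fun i => ⟪φ i, χ (i - 1)⟫_ℂ)]
    simp
  have h2 : ∑ i : ZMod q, ⟪φ (i - 1), χ i⟫_ℂ = ∑ i : ZMod q, ⟪φ i, χ (i + 1)⟫_ℂ := by
    rw [← Equiv.sum_comp (Equiv.addRight (1 : ZMod q)) (fun i => ⟪φ (i - 1), χ i⟫_ℂ)]
    simp
  have h3 : ∀ i : ZMod q, ⟪(v i.cast - E : ℂ) * φ i, χ i⟫_ℂ =
      ⟪φ i, (v i.cast - E : ℂ) * χ i⟫_ℂ := by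
    intro i
    rw [← smul_eq_mul, ← smul_eq_mul, inner_smul_left, inner_smul_right, map_sub,
      Complex.conj_ofReal, Complex.conj_ofReal]
  rw [h1, h2, Finset.sum_congr rfl fun i _ => h3 i]
  ring

omit [NeZero q] in
theorem per_mul {α : Type*} {u : ℤ → α} (h : ∀ j, u (j + q) = u j) (j k : ℤ) :
    u (j + k * q) = u j := by
  have h1 : Function.Periodic u (q : ℤ) := h
  have := h1.int_mul k j
  simpa using this

theorem per_cast {α : Type*} {u : ℤ → α} (h : ∀ j, u (j + q) = u j) (j : ℤ) :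
    u ((j : ZMod q).cast : ℤ) = u j := by
  have h1 : ((j : ZMod q).cast : ℤ) = j % q := ZMod.coe_intCast j
  rw [h1]
  have h2 := per_mul h (j % q) (j / q)
  rw [← h2]
  congr 1
  have := Int.emod_add_mul_ediv j q
  linarith

/-- the eigenvalues are large -/
theorem eig_large (v : ℤ → ℝ) (E r : ℝ) (hv : ∀ j, v (j + q) = v j)
    (h : ∀ E', |E' - E| < r → (Tr v E' q).trace ≠ 2) {lam : ℝ}
    {φ : EuclideanSpace ℂ (ZMod q)} (hφ : φ ≠ 0) (he : cycOp v E q φ = (lam : ℂ) • φ) :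
    r ≤ |lam| := by
  by_contra hcon
  push Not at hcon
  refine h (E + lam) (by rw [add_sub_cancel_left]; exact hcon) ?_
  set u : ℤ → ℂ := fun j => φ (j : ZMod q) with hu
  have hper : ∀ j, u (j + q) = u j := by
    intro j
    simp [hu]
  have heq : ∀ j : ℤ, u (j + 1) + u (j - 1) + (v j : ℂ) * u j = ((E + lam : ℝ) : ℂ) * u j := by
    intro j
    have h1 := congrArg (fun χ : EuclideanSpace ℂ (ZMod q) => χ (j : ZMod q)) he
    simp only [cycOp_apply, PiLp.smul_apply, smul_eq_mul] at h1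
    rw [per_cast hv] at h1
    simp only [hu]
    push_cast
    linear_combination h1
  have hsol := sol v (E + lam) u heq q
  have e1 : u (q : ℤ) = u 0 := by
    have := hper 0
    rwa [zero_add] at this
  have e2 : u ((q : ℤ) - 1) = u (-1) := by
    have := hper (-1)
    rwa [show (-1 : ℤ) + q = q - 1 by ring] at this
  rw [e1, e2] at hsol
  refine trace_eq_two v (E + lam) q ?_ hsol.1 hsol.2
  by_contra h0
  push Not at h0
  apply hφ
  ext i
  have h2 := (sol v (E + lam) u heq i.val).1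
  rw [h0.1, h0.2, mul_zero, mul_zero, add_zero] at h2
  simpa [hu] using h2

theorem cyc_bound (v : ℤ → ℝ) (E r : ℝ) (hv : ∀ j, v (j + q) = v j) (hr : 0 < r)
    (h : ∀ E', |E' - E| < r → (Tr v E' q).trace ≠ 2) (φ : EuclideanSpace ℂ (ZMod q)) :
    r ^ 2 * ‖φ‖ ^ 2 ≤ ‖cycOp v E q φ‖ ^ 2 := by
  have hT := cycOp_symm (q := q) v E
  have hn : Module.finrank ℂ (EuclideanSpace ℂ (ZMod q)) = Module.finrank ℂ (EuclideanSpace ℂ (ZMod q)) := rfl
  set b := hT.eigenvectorBasis hn with hb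
  have h1 : ∀ χ : EuclideanSpace ℂ (ZMod q), ‖χ‖ ^ 2 = ∑ i, ‖b.repr χ i‖ ^ 2 := by
    intro χ
    rw [← b.repr.norm_map χ, EuclideanSpace.norm_sq_eq]
  rw [h1, h1, Finset.mul_sum]
  refine Finset.sum_le_sum fun i _ => ?_
  have h2 : b.repr (cycOp v E q φ) i = hT.eigenvalues hn i * b.repr φ i :=
    hT.eigenvectorBasis_apply_self_apply hn φ i
  rw [h2, norm_mul, mul_pow]
  refine mul_le_mul_of_nonneg_right ?_ (by positivity)
  have h3 : r ≤ |hT.eigenvalues hn i| := by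
    refine eig_large v E r hv h (φ := b i) ?_ ?_
    · intro h0
      have := b.orthonormal.1 i
      rw [h0, norm_zero] at this
      exact zero_ne_one this
    · exact hT.apply_eigenvectorBasis hn i
  have h4 : ‖((hT.eigenvalues hn i : ℝ) : ℂ)‖ = |hT.eigenvalues hn i| := by
    rw [Complex.norm_real, Real.norm_eq_abs]
  have h5 : r ^ 2 ≤ |hT.eigenvalues hn i| ^ 2 := by gcongr
  calc r ^ 2 ≤ |hT.eigenvalues hn i| ^ 2 := h5
    _ = _ := by rw [← h4]

theorem sum_zmod (f : ZMod q → ℝ) : ∑ i : ZMod q, f i = ∑ j ∈ Finset.range q, f (j : ZMod q) := by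
  symm
  refine Finset.sum_bij (fun j _ => (j : ZMod q)) (fun _ _ => Finset.mem_univ _) ?_ ?_
    (fun _ _ => rfl)
  · intro a ha b hb hab
    rw [Finset.mem_range] at ha hb
    have := congrArg ZMod.val hab
    rwa [ZMod.val_natCast_of_lt ha, ZMod.val_natCast_of_lt hb] at this
  · intro b _
    exact ⟨b.val, Finset.mem_range.2 (ZMod.val_lt b), ZMod.natCast_zmod_val b⟩

/-- CYC -/
theorem cyc : T_CYC := by
  intro v q E r hq hv h hr ψ hψ
  have : NeZero q := ⟨by omega⟩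
  set φ : EuclideanSpace ℂ (ZMod q) := WithLp.toLp 2 fun i => ψ (i.cast : ℤ) with hφ
  have hφj : ∀ j : ℤ, φ (j : ZMod q) = ψ j := fun j => per_cast hψ j
  have h1 := cyc_bound v E r hv hr h φ
  rw [EuclideanSpace.norm_sq_eq, EuclideanSpace.norm_sq_eq, sum_zmod, sum_zmod] at h1
  have h2 : ∑ j ∈ Finset.range q, ‖φ ((j : ℕ) : ZMod q)‖ ^ 2 =
      ∑ j ∈ Finset.range q, ‖ψ j‖ ^ 2 := by
    refine Finset.sum_congr rfl fun j _ => ?_
    have := hφj j
    rw [Int.cast_natCast] at this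
    rw [this]
  have h3 : ∑ j ∈ Finset.range q, ‖cycOp v E q φ ((j : ℕ) : ZMod q)‖ ^ 2 =
      ∑ j ∈ Finset.range q, ‖ψ (j + 1) + ψ (j - 1) + (v j - E : ℂ) * ψ j‖ ^ 2 := by
    refine Finset.sum_congr rfl fun j _ => ?_
    rw [cycOp_apply]
    have e0 := hφj j
    have e1 := hφj (j + 1)
    have e2 := hφj (j - 1)
    have e3 : v (((j : ℕ) : ZMod q).cast : ℤ) = v j := by
      have := per_cast hv (j : ℤ)
      rwa [Int.cast_natCast] at this
    push_cast at e0 e1 e2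
    rw [e0, e1, e2, e3]
  rw [h2, h3] at h1
  exact h1

end Pool.Agent.H11.ST
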