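import Pool.Agent.H31.ST.Targets

/-!
# MP_0b97f5_mp, module OPER: the operator on `ℓ²(ℤ)`
-/

open Set Filter Topology Matrix
open scoped InnerProductSpace ENNReal

noncomputable section

namespace Pool.Agent.H11.ST

open H31.ST

theorem two_pos : 0 < (2 : ℝ≥0∞).toReal := by norm_num

theorem memlp_shift (ψ : L2Z) (k : ℤ) : Memℓp (fun n : ℤ => (ψ : ℤ → ℂ) (n + k)) 2 := by
  have h := (memℓp_gen_iff two_pos).1 (lp.memℓp ψ)
  exact (memℓp_gen_iff two_pos).2 ((Equiv.addRight k).summable_iff.2 h)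

/-- the shift by `k` -/
def shiftC (k : ℤ) : L2Z →L[ℂ] L2Z :=
  LinearMap.mkContinuous
    { toFun := fun ψ => (⟨fun n : ℤ => (ψ : ℤ → ℂ) (n + k), memlp_shift ψ k⟩ : L2Z)
      map_add' := fun ψ φ => rfl
      map_smul' := fun c ψ => rfl } 1 (fun ψ => by
        rw [one_mul]
        refine lp.norm_le_of_tsum_le two_pos (norm_nonneg _) ?_
        rw [lp.norm_rpow_eq_tsum two_pos]
        exact ((Equiv.addRight k).tsum_eq
          (fun n : ℤ => ‖(ψ : ℤ → ℂ) n‖ ^ (2 : ℝ≥0∞).toReal)).le)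

theorem shiftC_apply (k : ℤ) (ψ : L2Z) (n : ℤ) : (shiftC k ψ : ℤ → ℂ) n = ψ (n + k) := rfl

theorem memlp_mul {v : ℤ → ℝ} {C : ℝ} (hC : ∀ n, |v n| ≤ C) (ψ : L2Z) :
    Memℓp (fun n : ℤ => (v n : ℂ) * (ψ : ℤ → ℂ) n) 2 := by
  refine Memℓp.mono (g := fun n => C * ‖(ψ : ℤ → ℂ) n‖) ?_ ?_
  · exact ((lp.memℓp ψ).norm).const_mul C
  · intro n
    rw [norm_mul, Complex.norm_real, Real.norm_eq_abs]
    exact mul_le_mul_of_nonneg_right (hC n) (norm_nonneg _)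

/-- multiplication by a bounded potential -/
def mulC (v : ℤ → ℝ) (C : ℝ) (hC : ∀ n, |v n| ≤ C) : L2Z →L[ℂ] L2Z :=
  LinearMap.mkContinuous
    { toFun := fun ψ => (⟨fun n : ℤ => (v n : ℂ) * (ψ : ℤ → ℂ) n, memlp_mul hC ψ⟩ : L2Z)
      map_add' := fun ψ φ => by
        ext n
        exact mul_add _ _ _
      map_smul' := fun c ψ => by
        ext n
        exact mul_left_comm _ _ _ } C (fun ψ => by
        have hC0 : 0 ≤ C := (abs_nonneg _).trans (hC 0)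
        have h1 : ‖((C : ℂ) • ψ : L2Z)‖ = C * ‖ψ‖ := by
          rw [lp.norm_const_smul (by norm_num), Complex.norm_real, Real.norm_of_nonneg hC0]
        rw [← h1]
        refine lp.norm_mono (by norm_num) ?_
        intro n
        have h2 : ((C : ℂ) • ψ : L2Z) n = (C : ℂ) * (ψ : ℤ → ℂ) n := rfl
        rw [h2, norm_mul, Complex.norm_real, Real.norm_of_nonneg hC0]
        show ‖(v n : ℂ) * (ψ : ℤ → ℂ) n‖ ≤ _
        rw [norm_mul, Complex.norm_real, Real.norm_eq_abs]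
        exact mul_le_mul_of_nonneg_right (hC n) (norm_nonneg _))

theorem mulC_apply (v : ℤ → ℝ) (C : ℝ) (hC : ∀ n, |v n| ≤ C) (ψ : L2Z) (n : ℤ) :
    (mulC v C hC ψ : ℤ → ℂ) n = (v n : ℂ) * ψ n := rfl

theorem inner_shiftC (k : ℤ) (ψ φ : L2Z) : ⟪shiftC k ψ, φ⟫_ℂ = ⟪ψ, shiftC (-k) φ⟫_ℂ := by
  rw [lp.inner_eq_tsum, lp.inner_eq_tsum]
  have h := (Equiv.addRight k).tsum_eq
    (fun n : ℤ => ⟪(ψ : ℤ → ℂ) n, (shiftC (-k) φ : ℤ → ℂ) n⟫_ℂ)
  rw [← h]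
  refine tsum_congr fun n => ?_
  simp only [shiftC_apply, Equiv.coe_addRight, add_neg_cancel_right]

theorem inner_mulC (v : ℤ → ℝ) (C : ℝ) (hC : ∀ n, |v n| ≤ C) (ψ φ : L2Z) :
    ⟪mulC v C hC ψ, φ⟫_ℂ = ⟪ψ, mulC v C hC φ⟫_ℂ := by
  rw [lp.inner_eq_tsum, lp.inner_eq_tsum]
  refine tsum_congr fun n => ?_
  rw [mulC_apply, mulC_apply, ← smul_eq_mul, ← smul_eq_mul, inner_smul_left, inner_smul_right,
    Complex.conj_ofReal]

/-- OPER -/
theorem oper : T_OPER := by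
  rintro v ⟨C, hC⟩
  refine ⟨shiftC 1 + shiftC (-1) + mulC v C hC, ?_, ?_, ?_⟩
  · intro ψ n
    rfl
  · rw [ContinuousLinearMap.isSelfAdjoint_iff_isSymmetric]
    intro ψ φ
    simp only [ContinuousLinearMap.coe_coe, _root_.add_apply, inner_add_left,
      inner_add_right, inner_shiftC, inner_mulC, neg_neg]
    ring
  · intro H' hH'
    apply ContinuousLinearMap.ext
    intro ψ
    apply lp.ext
    funext n
    rw [hH' ψ n]
    rfl

/-- every discrete Schrödinger operator is self-adjoint -/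
theorem isSelfAdjoint_of_isSchr {v : ℤ → ℝ} (hv : ∃ C, ∀ n, |v n| ≤ C) {H : L2Z →L[ℂ] L2Z}
    (hH : IsSchr v H) : IsSelfAdjoint H := by
  obtain ⟨H₀, -, h2, h3⟩ := oper v hv
  rw [h3 H hH]
  exact h2

end Pool.Agent.H11.ST
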