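import Pool.Agent.H31.ST.Targets

/-!
# MP_0b97f5_mp, modules BLOCH and CYC: transfer matrices
-/

open Set Filter Topology Matrix

noncomputable section

namespace Pool.Agent.H11.ST

open H31.ST

theorem Tr_zero (v : ℤ → ℝ) (E : ℝ) : Tr v E 0 = 1 := rfl

theorem Tr_succ (v : ℤ → ℝ) (E : ℝ) (n : ℕ) :
    Tr v E (n + 1) = !![E - v n, -1; 1, 0] * Tr v E n := rfl

theorem Tr_succ_00 (v : ℤ → ℝ) (E : ℝ) (n : ℕ) :
    Tr v E (n + 1) 0 0 = (E - v n) * Tr v E n 0 0 - Tr v E n 1 0 := by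
  rw [Tr_succ, Matrix.mul_apply, Fin.sum_univ_two]
  simp [sub_eq_add_neg]

theorem Tr_succ_01 (v : ℤ → ℝ) (E : ℝ) (n : ℕ) :
    Tr v E (n + 1) 0 1 = (E - v n) * Tr v E n 0 1 - Tr v E n 1 1 := by
  rw [Tr_succ, Matrix.mul_apply, Fin.sum_univ_two]
  simp [sub_eq_add_neg]

theorem Tr_succ_10 (v : ℤ → ℝ) (E : ℝ) (n : ℕ) :
    Tr v E (n + 1) 1 0 = Tr v E n 0 0 := by
  rw [Tr_succ, Matrix.mul_apply, Fin.sum_univ_two]
  simp

theorem Tr_succ_11 (v : ℤ → ℝ) (E : ℝ) (n : ℕ) :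
    Tr v E (n + 1) 1 1 = Tr v E n 0 1 := by
  rw [Tr_succ, Matrix.mul_apply, Fin.sum_univ_two]
  simp

theorem Tr_det (v : ℤ → ℝ) (E : ℝ) (n : ℕ) : (Tr v E n).det = 1 := by
  induction n with
  | zero => rw [Tr_zero, det_one]
  | succ n ih => rw [Tr_succ, det_mul, ih, Matrix.det_fin_two_of]; ring

theorem Tr_det' (v : ℤ → ℝ) (E : ℝ) (n : ℕ) :
    Tr v E n 0 0 * Tr v E n 1 1 - Tr v E n 0 1 * Tr v E n 1 0 = 1 := by
  rw [← Matrix.det_fin_two, Tr_det]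

theorem Tr_add (v : ℤ → ℝ) (E : ℝ) (q : ℕ) (hv : ∀ j, v (j + q) = v j) (n : ℕ) :
    Tr v E (n + q) = Tr v E n * Tr v E q := by
  induction n with
  | zero => rw [zero_add, Tr_zero, one_mul]
  | succ n ih =>
    rw [show n + 1 + q = (n + q) + 1 by ring, Tr_succ, ih, Tr_succ, Matrix.mul_assoc]
    congr 4
    push_cast
    rw [hv]

/-- solutions are given by the transfer matrices -/
theorem sol (v : ℤ → ℝ) (E : ℝ) (u : ℤ → ℂ)
    (h : ∀ j : ℤ, u (j + 1) + u (j - 1) + (v j : ℂ) * u j = E * u j) (n : ℕ) :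
    u n = (Tr v E n 0 0 : ℂ) * u 0 + (Tr v E n 0 1 : ℂ) * u (-1) ∧
    u (n - 1) = (Tr v E n 1 0 : ℂ) * u 0 + (Tr v E n 1 1 : ℂ) * u (-1) := by
  induction n with
  | zero => simp [Tr_zero]
  | succ n ih =>
    obtain ⟨h1, h2⟩ := ih
    have h3 := h n
    refine ⟨?_, ?_⟩
    · rw [Tr_succ_00, Tr_succ_01]
      push_cast
      have h4 : u ((n : ℤ) + 1) = (E - v n) * u n - u (n - 1) := by
        linear_combination h3
      rw [h4, h1, h2]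
      ring
    · rw [Tr_succ_10, Tr_succ_11]
      push_cast
      rw [add_sub_cancel_right]
      exact h1

/-- a fixed vector of the transfer matrix -/
theorem trace_eq_two (v : ℤ → ℝ) (E : ℝ) (q : ℕ) {x y : ℂ} (hxy : x ≠ 0 ∨ y ≠ 0)
    (h1 : x = (Tr v E q 0 0 : ℂ) * x + (Tr v E q 0 1 : ℂ) * y)
    (h2 : y = (Tr v E q 1 0 : ℂ) * x + (Tr v E q 1 1 : ℂ) * y) :
    (Tr v E q).trace = 2 := by
  have hd : (Tr v E q 0 0 : ℂ) * (Tr v E q 1 1 : ℂ) - (Tr v E q 0 1 : ℂ) * (Tr v E q 1 0 : ℂ) = 1 := by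
    exact_mod_cast Tr_det' v E q
  have hx : (2 - ((Tr v E q 0 0 : ℂ) + (Tr v E q 1 1 : ℂ))) * x = 0 := by
    linear_combination (1 - Tr v E q 1 1 : ℂ) * h1 + (Tr v E q 0 1 : ℂ) * h2 - x * hd
  have hy : (2 - ((Tr v E q 0 0 : ℂ) + (Tr v E q 1 1 : ℂ))) * y = 0 := by
    linear_combination (1 - Tr v E q 0 0 : ℂ) * h2 + (Tr v E q 1 0 : ℂ) * h1 - y * hd
  have h3 : (2 - ((Tr v E q 0 0 : ℂ) + (Tr v E q 1 1 : ℂ))) = 0 := by
    rcases hxy with h | h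
    · exact (mul_eq_zero.1 hx).resolve_right h
    · exact (mul_eq_zero.1 hy).resolve_right h
  rw [Matrix.trace_fin_two]
  have h4 : (2 - (Tr v E q 0 0 + Tr v E q 1 1) : ℝ) = 0 := by exact_mod_cast h3
  linarith

/-- eigenvalue of modulus one -/
theorem exists_unit_eigen (A : Mat) (hd : A.det = 1) (ht : |A.trace| ≤ 2) :
    ∃ μ x y : ℂ, ‖μ‖ = 1 ∧ (x ≠ 0 ∨ y ≠ 0) ∧ (A 0 0 : ℂ) * x + (A 0 1 : ℂ) * y = μ * x ∧
      (A 1 0 : ℂ) * x + (A 1 1 : ℂ) * y = μ * y := by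
  set t : ℝ := A.trace with htdef
  have h4 : 0 ≤ 4 - t ^ 2 := by
    rw [abs_le] at ht
    nlinarith
  set s : ℝ := Real.sqrt (4 - t ^ 2) with hs
  have hs2 : s ^ 2 = 4 - t ^ 2 := Real.sq_sqrt h4
  set μ : ℂ := ⟨t / 2, s / 2⟩ with hμ
  have hnorm : ‖μ‖ = 1 := by
    have h1 : ‖μ‖ ^ 2 = 1 := by
      rw [Complex.sq_norm, Complex.normSq_apply, hμ]
      linear_combination (1 / 4 : ℝ) * hs2
    nlinarith [norm_nonneg μ]
  have hroot : μ ^ 2 - (t : ℂ) * μ + 1 = 0 := by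
    have hμ' : μ = (t / 2 : ℝ) + (s / 2 : ℝ) * Complex.I := by
      rw [hμ, Complex.mk_eq_add_mul_I]
    have hs3 : (s : ℂ) ^ 2 = 4 - (t : ℂ) ^ 2 := by exact_mod_cast hs2
    rw [hμ']
    push_cast
    linear_combination (s ^ 2 / 4 : ℂ) * Complex.I_sq - (1 / 4 : ℂ) * hs3
  have htr : t = A 0 0 + A 1 1 := by rw [htdef, Matrix.trace_fin_two]
  have hdet : (A 0 0 : ℂ) * A 1 1 - (A 0 1 : ℂ) * A 1 0 = 1 := by
    rw [Matrix.det_fin_two] at hd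
    exact_mod_cast hd
  have hdd : (!![(A 0 0 : ℂ) - μ, (A 0 1 : ℂ); (A 1 0 : ℂ), (A 1 1 : ℂ) - μ]).det = 0 := by
    rw [Matrix.det_fin_two_of]
    rw [htr] at hroot
    push_cast at hroot
    linear_combination hdet + hroot
  obtain ⟨w, hw, hw'⟩ := Matrix.exists_mulVec_eq_zero_iff.2 hdd
  refine ⟨μ, w 0, w 1, hnorm, ?_, ?_, ?_⟩
  · by_contra h
    push Not at h
    apply hw
    funext i
    fin_cases i
    · exact h.1
    · exact h.2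
  · have h1 := congrFun hw' 0
    simp [Matrix.mulVec, dotProduct, Fin.sum_univ_two] at h1
    linear_combination h1
  · have h1 := congrFun hw' 1
    simp [Matrix.mulVec, dotProduct, Fin.sum_univ_two] at h1
    linear_combination h1

end Pool.Agent.H11.ST
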